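import Pool.Agent.H581R2.SplayRun

/-!
# Splaying and nearly free request sequences
-/

set_option autoImplicit false

namespace Pool.Agent.H547S2

open Pool.Agent.H581R2.Splay Tr

/-- `R1 t t'`: `t'` arises from `t` by one rotation. -/
inductive R1 : Tr → Tr → Prop
  | right (a b : ℕ) (A B C : Tr) : R1 (node a (node b A B) C) (node b A (node a B C))
  | left (a b : ℕ) (A B C : Tr) : R1 (node b A (node a B C)) (node a (node b A B) C)
  | inl (a : ℕ) (L L' R : Tr) : R1 L L' → R1 (node a L R) (node a L' R)
  | inr (a : ℕ) (L R R' : Tr) : R1 R R' → R1 (node a L R) (node a L R')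

/-- `RN t t' e`: `t'` arises from `t` by `e` rotations. -/
inductive RN : Tr → Tr → ℕ → Prop
  | refl (t : Tr) : RN t t 0
  | step (t t' t'' : Tr) (e : ℕ) : R1 t t' → RN t' t'' e → RN t t'' (e + 1)

/-- `Exec T X c`: there is an execution for `(X, T)` of cost `c`: for each request `x` the key `x`
is searched in the current tree (cost one plus its depth), then `e` rotations are performed
(cost `e`). -/
inductive Exec : Tr → List ℕ → ℕ → Prop
  | nil (T : Tr) : Exec T [] 0
  | cons (T T' : Tr) (x : ℕ) (X : List ℕ) (e c : ℕ) :
      RN T T' e → Exec T' X c → Exec T (x :: X) (1 + e + dep x T + c)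

/-- Splaying is `C`-competitive. -/
def Competitive (C : ℕ) : Prop := ∀ (T : Tr) (X : List ℕ) (c : ℕ), IsBST T →
  (∀ x ∈ X, x ∈ keys T) → Exec T X c → costSplay T X ≤ C * c

/-- Splaying costs at most `C` per request on every request sequence for which there is an
execution of cost at most `1 + 1/k` per request. -/
def NearlyFree (k C : ℕ) : Prop := ∀ (T : Tr) (X : List ℕ) (c : ℕ), IsBST T →
  (∀ x ∈ X, x ∈ keys T) → Exec T X c → k * c ≤ (k + 1) * X.length →
    costSplay T X ≤ C * X.length

theorem R1.symm {t t' : Tr} (h : R1 t t') : R1 t' t := by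
  induction h with
  | right a b A B C => exact R1.left a b A B C
  | left a b A B C => exact R1.right a b A B C
  | inl a L L' R _ ih => exact R1.inl a L' L R ih
  | inr a L R R' _ ih => exact R1.inr a L R' R ih

theorem R1.keys {t t' : Tr} (h : R1 t t') : Pool.Agent.H581R2.Splay.keys t' =
    Pool.Agent.H581R2.Splay.keys t := by
  induction h with
  | right a b A B C => simp [Pool.Agent.H581R2.Splay.keys]
  | left a b A B C => simp [Pool.Agent.H581R2.Splay.keys]
  | inl a L L' R _ ih => simp [Pool.Agent.H581R2.Splay.keys, ih]
  | inr a L R R' _ ih => simp [Pool.Agent.H581R2.Splay.keys, ih]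

theorem RN.trans {t t' t'' : Tr} {e e' : ℕ} (h : RN t t' e) (h' : RN t' t'' e') :
    RN t t'' (e + e') := by
  induction h with
  | refl t => simpa using h'
  | step t s s' e hs _ ih =>
    have := RN.step t s t'' (e + e') hs (ih h')
    have e2 : e + 1 + e' = e + e' + 1 := by ring
    rw [e2]; exact this

theorem RN.symm {t t' : Tr} {e : ℕ} (h : RN t t' e) : RN t' t e := by
  induction h with
  | refl t => exact RN.refl t
  | step t s s' e hs _ ih => exact ih.trans (RN.step _ _ _ 0 hs.symm (RN.refl _))

theorem RN.keys {t t' : Tr} {e : ℕ} (h : RN t t' e) : Pool.Agent.H581R2.Splay.keys t' =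
    Pool.Agent.H581R2.Splay.keys t := by
  induction h with
  | refl t => rfl
  | step t s s' e hs _ ih => rw [ih, hs.keys]

theorem RN.inl {L L' : Tr} {e : ℕ} (a : ℕ) (R : Tr) (h : RN L L' e) :
    RN (node a L R) (node a L' R) e := by
  induction h with
  | refl t => exact RN.refl _
  | step t s s' e hs _ ih => exact RN.step _ _ _ _ (R1.inl a _ _ R hs) ih

theorem RN.inr {R R' : Tr} {e : ℕ} (a : ℕ) (L : Tr) (h : RN R R' e) :
    RN (node a L R) (node a L R') e := by
  induction h with
  | refl t => exact RN.refl _
  | step t s s' e hs _ ih => exact RN.step _ _ _ _ (R1.inr a L _ _ hs) ih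

theorem rn_toRoot (x : ℕ) : ∀ (t : Tr), IsBST t → x ∈ keys t → RN t (toRoot x t) (dep x t) := by
  intro t
  induction t with
  | nil => intro _ h; simp [keys] at h
  | node a l r ihl ihr =>
    intro hb hx
    obtain ⟨hl, hr, h1, h2⟩ := bst_node hb
    simp only [keys, List.mem_append, List.mem_cons] at hx
    simp only [toRoot, dep]
    by_cases e : x = a
    · rw [if_pos e, if_pos e]; exact RN.refl _
    · rw [if_neg e, if_neg e]
      by_cases e2 : x < a
      · rw [if_pos e2, if_pos e2]
        have hxl : x ∈ keys l := by
          rcases hx with h | h | h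
          · exact h
          · exact absurd h e
          · have := h2 x h; omega
        obtain ⟨⟨l', r', hh⟩, hk⟩ := toRoot_spec x l hl hxl
        have h3 := ihl hl hxl
        rw [hh] at h3 ⊢
        exact (h3.inl a r).trans (RN.step _ _ _ 0 (R1.right a x l' r' r) (RN.refl _))
      · rw [if_neg e2, if_neg e2]
        have hxr : x ∈ keys r := by
          rcases hx with h | h | h
          · have := h1 x h; omega
          · exact absurd h e
          · exact h
        obtain ⟨⟨l', r', hh⟩, hk⟩ := toRoot_spec x r hr hxr
        have h3 := ihr hr hxr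
        rw [hh] at h3 ⊢
        exact (h3.inr a l).trans (RN.step _ _ _ 0 (R1.left x a l l' r') (RN.refl _))

theorem splay_self (x : ℕ) (l r : Tr) : splay x (node x l r) = node x l r := by
  simp [splay, locate, climb]

theorem dep_self (x : ℕ) (l r : Tr) : dep x (node x l r) = 0 := by simp [dep]

/-- repeating a request that is at the root costs one each -/
theorem cost_rep (x : ℕ) (l r : Tr) (X : List ℕ) (j : ℕ) :
    costSplay (node x l r) (List.replicate j x ++ X) = j + costSplay (node x l r) X := by
  induction j with
  | zero => simp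
  | succ j ih =>
    rw [List.replicate_succ, List.cons_append]
    simp only [costSplay]
    rw [splay_self, dep_self, ih]
    ring

/-- cost of splaying the sequence with each request repeated -/
theorem cost_flat (j : ℕ) : ∀ (X : List ℕ) (T : Tr),
    costSplay T (X.flatMap fun x => List.replicate (j + 1) x) = costSplay T X + j * X.length := by
  intro X
  induction X with
  | nil => intro T; simp [costSplay]
  | cons x X ih =>
    intro T
    rw [List.flatMap_cons, List.replicate_succ, List.cons_append]
    simp only [costSplay]
    obtain ⟨l, r, h⟩ := splay_root x T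
    rw [h, cost_rep, ← h, ih, List.length_cons]
    ring

/-- executions that do nothing while the root is requested -/
theorem exec_rep (x : ℕ) (l r : Tr) (X : List ℕ) (c j : ℕ) (h : Exec (node x l r) X c) :
    Exec (node x l r) (List.replicate j x ++ X) (j + c) := by
  induction j with
  | zero => simpa using h
  | succ j ih =>
    rw [List.replicate_succ, List.cons_append]
    have := Exec.cons (node x l r) (node x l r) x _ 0 (j + c) (RN.refl _) ih
    rw [dep_self] at this
    have e : j + 1 + c = 1 + 0 + 0 + (j + c) := by ring
    rw [e]; exact this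

/-- executions for the sequence with each request repeated -/
theorem exec_flat (j : ℕ) {T : Tr} {X : List ℕ} {c : ℕ} (h : Exec T X c) : IsBST T →
    (∀ x ∈ X, x ∈ keys T) →
    ∃ c', Exec T (X.flatMap fun x => List.replicate (j + 2) x) c' ∧
      c' + 3 * X.length ≤ (j + 2) * X.length + 3 * c := by
  induction h with
  | nil T => intro _ _; exact ⟨0, by simpa using Exec.nil T, by simp⟩
  | cons T T' x X e c hR hE ih =>
    intro hb hX
    have hx : x ∈ keys T := hX x (by simp)
    have hk := hR.keys
    obtain ⟨c', h1, h2⟩ := ih (by unfold IsBST; rw [hk]; exact hb)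
      (fun y hy => by rw [hk]; exact hX y (by simp [hy]))
    obtain ⟨⟨l, r, hlr⟩, -⟩ := toRoot_spec x T hb hx
    have h3 := rn_toRoot x T hb hx
    rw [hlr] at h3
    -- the last copy
    have h4 := Exec.cons (node x l r) T' x _ (dep x T + e) c' (h3.symm.trans hR) h1
    rw [dep_self] at h4
    have h5 := exec_rep x l r _ _ j h4
    have h6 := Exec.cons T (node x l r) x _ (dep x T) _ h3 h5
    refine ⟨1 + dep x T + dep x T + (j + (1 + (dep x T + e) + 0 + c')), ?_, ?_⟩
    · rw [List.flatMap_cons]
      have e1 : List.replicate (j + 2) x = x :: (List.replicate j x ++ [x]) := by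
        rw [show j + 2 = (j + 1) + 1 by ring, List.replicate_succ, List.replicate_succ']
      rw [e1]
      simpa using h6
    · rw [List.length_cons]
      nlinarith [h2]

theorem exec_len {T : Tr} {X : List ℕ} {c : ℕ} (h : Exec T X c) : X.length ≤ c := by
  induction h with
  | nil T => simp
  | cons T T' x X e c _ _ ih => rw [List.length_cons]; omega

theorem comp_of_free (k C : ℕ) (hk : 1 ≤ k) (h : NearlyFree k C) : Competitive (9 * k * C) := by
  intro T X c hb hX hE
  rcases Nat.eq_zero_or_pos X.length with h0 | hpos
  · have : X = [] := List.eq_nil_of_length_eq_zero h0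
    subst this
    simp [costSplay]
  · set m := X.length with hm
    have hc : m ≤ c := exec_len hE
    -- number of copies
    set j := 3 * k * (c / m + 1) with hj
    obtain ⟨c', h1, h2⟩ := exec_flat j hE hb hX
    have hd : m * (c / m) + c % m = c := Nat.div_add_mod c m
    have hmod : c % m < m := Nat.mod_lt _ hpos
    have hlen : (X.flatMap fun x => List.replicate (j + 2) x).length = (j + 2) * m := by
      rw [List.length_flatMap]
      simp [hm, mul_comm]
    have hjm : 3 * k * c ≤ j * m := by
      rw [hj]
      have : c ≤ (c / m + 1) * m := by nlinarith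
      calc 3 * k * c ≤ 3 * k * ((c / m + 1) * m) := Nat.mul_le_mul_left _ this
        _ = _ := by ring
    have hjm2 : j * m ≤ 6 * k * c := by
      rw [hj]
      have h3 : c / m * m ≤ c := Nat.div_mul_le_self c m
      have : (c / m + 1) * m ≤ 2 * c := by nlinarith
      calc 3 * k * (c / m + 1) * m = 3 * k * ((c / m + 1) * m) := by ring
        _ ≤ 3 * k * (2 * c) := Nat.mul_le_mul_left _ this
        _ = _ := by ring
    have h4 := h T _ c' hb (by
      intro x hx
      obtain ⟨y, hy, hxy⟩ := List.mem_flatMap.mp hx
      rw [List.eq_of_mem_replicate hxy]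
      exact hX y hy) h1 (by
        rw [hlen]
        have h6 : k * c' ≤ k * ((j + 2) * m) + 3 * k * c := by
          have h5 : c' ≤ (j + 2) * m + 3 * c := by linarith
          calc k * c' ≤ k * ((j + 2) * m + 3 * c) := Nat.mul_le_mul_left _ h5
            _ = _ := by ring
        calc k * c' ≤ k * ((j + 2) * m) + 3 * k * c := h6
          _ ≤ k * ((j + 2) * m) + j * m := by omega
          _ ≤ k * ((j + 2) * m) + (j + 2) * m := by nlinarith
          _ = _ := by ring)
    rw [hlen] at h4
    have h5 := cost_flat (j + 1) X T
    rw [h5] at h4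
    have h7 : (j + 2) * m ≤ 9 * k * c := by
      have : 2 * m ≤ 2 * k * c := by
        calc 2 * m ≤ 2 * c := by omega
          _ ≤ 2 * k * c := by nlinarith
      nlinarith
    calc costSplay T X ≤ C * ((j + 2) * m) := by omega
      _ ≤ C * (9 * k * c) := Nat.mul_le_mul_left _ h7
      _ = 9 * k * C * c := by ring

theorem free_of_comp (k C : ℕ) (hk : 1 ≤ k) (h : Competitive C) : NearlyFree k (2 * C) := by
  intro T X c hb hX hE hc
  have h1 := h T X c hb hX hE
  have h2 : c ≤ 2 * X.length := by
    by_contra hcon
    push Not at hcon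
    have h3 : k * (2 * X.length + 1) ≤ k * c := Nat.mul_le_mul_left _ hcon
    nlinarith
  calc costSplay T X ≤ C * c := h1
    _ ≤ C * (2 * X.length) := Nat.mul_le_mul_left _ h2
    _ = _ := by ring

end Pool.Agent.H547S2
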